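import Pool.Agent.H.MP_898cae_lc.A
namespace Pool.Agent.Results.MP_898cae_lc.No
open Cardinal Pool.Agent.H.MP_898cae_lc

theorem result : (∃ 𝓐, Maximal PT 𝓐) ∧ (∀ 𝓐, Maximal PT 𝓐 → #𝓐 = 𝔠) ∧ propT = 𝔠 :=
  ⟨ex, fun _ => card, propT_eq⟩

end Pool.Agent.Results.MP_898cae_lc.No
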